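import Pool.Agent.H98.WC.Defs
import Pool.Agent.H98.PolarMain

/-!
Blocks of rows: if Builder does not win the game for `α`, then below every condition there is a
block of type `α` of rows which contain a common infinite subset of a given infinite set and a
given finite set.
-/

open Cardinal Ordinal Set

namespace Pool.Agent.H98.Polar

section Strat

variable {X K' : Type} [Nonempty X] [LinearOrder K'] [WellFoundedLT K']

open scoped Classical in
/-- the play -/
noncomputable def playG (U : X → Prop) (L : X → X → Prop)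
    (V : X → {B : Set ℕ // B.Infinite} → Prop)
    (B : K' → {B : Set ℕ // B.Infinite}) : K' → X :=
  WellFoundedLT.fix (motive := fun _ => X)
    (fun ξ h => if hx : ∃ x, U x ∧ (∀ η (hη : η < ξ), L x (h η hη)) ∧ ∀ η, η < ξ → V x (B η)
      then hx.choose else Classical.arbitrary X)

theorem playG_eq (U : X → Prop) (L : X → X → Prop)
    (V : X → {B : Set ℕ // B.Infinite} → Prop)
    (B : K' → {B : Set ℕ // B.Infinite}) (ξ : K') : playG U L V B ξ =
      open scoped Classical in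
      if hx : ∃ x, U x ∧ (∀ η, η < ξ → L x (playG U L V B η)) ∧ ∀ η, η < ξ → V x (B η)
      then hx.choose else Classical.arbitrary X := by
  classical
  unfold playG
  exact WellFoundedLT.fix_eq (motive := fun _ => X)
    (fun ξ h => if hx : ∃ x, U x ∧ (∀ η (hη : η < ξ), L x (h η hη)) ∧ ∀ η, η < ξ → V x (B η)
      then hx.choose else Classical.arbitrary X) ξ

theorem playG_spec {U : X → Prop} {L : X → X → Prop}
    {V : X → {B : Set ℕ // B.Infinite} → Prop}
    (H : ∀ (ξ : K') (B : K' → {B : Set ℕ // B.Infinite}) (h : K' → X),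
      (∀ η < ξ, U (h η)) → (∀ η < ξ, ∀ ζ < η, L (h η) (h ζ)) →
      ∃ x, U x ∧ (∀ η < ξ, L x (h η)) ∧ ∀ η < ξ, V x (B η))
    (B : K' → {B : Set ℕ // B.Infinite}) (ξ : K') :
    U (playG U L V B ξ) ∧ (∀ η < ξ, L (playG U L V B ξ) (playG U L V B η)) ∧
      ∀ η < ξ, V (playG U L V B ξ) (B η) := by
  classical
  induction ξ using WellFoundedLT.induction with
  | ind ξ ih =>
    have hx := H ξ B (playG U L V B) (fun η hη => (ih η hη).1)
      (fun η hη ζ hζ => (ih η hη).2.1 ζ hζ)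
    rw [playG_eq, dif_pos hx]
    exact hx.choose_spec

theorem playG_local (U : X → Prop) (L : X → X → Prop)
    (V : X → {B : Set ℕ // B.Infinite} → Prop)
    {B B' : K' → {B : Set ℕ // B.Infinite}} {ξ : K'} (hB : ∀ η < ξ, B η = B' η) :
    playG U L V B ξ = playG U L V B' ξ := by
  classical
  induction ξ using WellFoundedLT.induction with
  | ind ξ ih =>
    have h3 : ∀ η, η < ξ → playG U L V B η = playG U L V B' η := fun η hη =>
      ih η hη (fun ζ hζ => hB ζ (hζ.trans hη))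
    have h2 : (fun x => U x ∧ (∀ η, η < ξ → L x (playG U L V B η)) ∧ ∀ η, η < ξ → V x (B η)) =
        fun x => U x ∧ (∀ η, η < ξ → L x (playG U L V B' η)) ∧ ∀ η, η < ξ → V x (B' η) := by
      funext x
      apply propext
      constructor
      · rintro ⟨h4, h5, h7⟩
        exact ⟨h4, fun η hη => by rw [← h3 η hη]; exact h5 η hη,
          fun η hη => by rw [← hB η hη]; exact h7 η hη⟩
      · rintro ⟨h4, h5, h7⟩
        exact ⟨h4, fun η hη => by rw [h3 η hη]; exact h5 η hη,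
          fun η hη => by rw [hB η hη]; exact h7 η hη⟩
    rw [playG_eq, playG_eq]
    simp only [h2]

end Strat

/-- The block lemma. -/
theorem block {κ : Cardinal.{0}} (hreg : κ.IsRegular) (hunc : ℵ₀ < κ) {P : Type} [Preorder P]
    (hP : ClosedPoset κ P) (c : SetName P (κ.ord.ToType × ℕ)) {p : P}
    (hno0 : ∀ r ≤ p, ¬ fHom κ κ.ord false c r) {E : Finset ℕ}
    (hE : Unb (fun ξ r => ∃ S : Set ℕ, RowDec c r ξ S ∧ (E : Set ℕ) ⊆ S) p)
    {D : Set ℕ} (hD : D.Infinite) {α : Ordinal.{0}} (hα : α < κ.ord)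
    (hn : ¬ BuilderWins κ α) (δ : κ.ord.ToType) {q : P} (hq : q ≤ p) :
    ∃ q' ≤ q, ∃ C : Set ℕ, C.Infinite ∧ C ⊆ D ∧ ∃ g : α.ToType → κ.ord.ToType,
      StrictMono g ∧ (∀ i, δ < g i) ∧
      ∀ i, ∃ S, RowDec c q' (g i) S ∧ C ⊆ S ∧ (E : Set ℕ) ⊆ S := by
  classical
  have hinf : ℵ₀ ≤ κ := hreg.aleph0_le
  have hIio : ∀ ξ : κ.ord.ToType, #(Iio ξ) < κ := fun ξ => mk_Iio_toType_ord_lt ξ
  have hne : Nonempty (P × κ.ord.ToType) := ⟨(p, δ)⟩
  -- enumerate `D`
  let d : ℕ → ℕ := Nat.nth (· ∈ D)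
  have hd : StrictMono d := Nat.nth_strictMono (p := (· ∈ D)) hD
  have hdD : ∀ n, d n ∈ D := fun n => Nat.nth_mem_of_infinite (p := (· ∈ D)) hD n
  have himg : ∀ B : Set ℕ, B.Infinite → (d '' B).Infinite := fun B hB =>
    hB.image hd.injective.injOn
  let Sx : P × κ.ord.ToType → Set ℕ := fun x => {n | fMem (x.2, n) c x.1}
  let U : P × κ.ord.ToType → Prop := fun x =>
    x.1 ≤ q ∧ δ < x.2 ∧ RowDec c x.1 x.2 (Sx x) ∧ (E : Set ℕ) ⊆ Sx x
  let L : P × κ.ord.ToType → P × κ.ord.ToType → Prop := fun x y => x.1 ≤ y.1 ∧ y.2 < x.2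
  let V : P × κ.ord.ToType → {B : Set ℕ // B.Infinite} → Prop := fun x B =>
    (Sx x ∩ d '' B.1).Nonempty
  have H : ∀ (ξ : κ.ord.ToType) (B : κ.ord.ToType → {B : Set ℕ // B.Infinite})
      (h : κ.ord.ToType → P × κ.ord.ToType),
      (∀ η < ξ, U (h η)) → (∀ η < ξ, ∀ ζ < η, L (h η) (h ζ)) →
      ∃ x, U x ∧ (∀ η < ξ, L x (h η)) ∧ ∀ η < ξ, V x (B η) := by
    intro ξ B h hU hL
    obtain ⟨q₀, hq₀⟩ := hP (insert q ((fun η => (h η).1) '' Iio ξ))
      ((mk_insert_le).trans_lt (add_lt_of_lt hinf (mk_image_le.trans_lt (hIio ξ))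
        (one_lt_aleph0.trans hunc))) (by
      rintro x (rfl | ⟨a, ha, rfl⟩) y (rfl | ⟨b, hb, rfl⟩) hxy
      · exact absurd rfl hxy
      · exact Or.inr (hU b hb).1
      · exact Or.inl (hU a ha).1
      · rcases lt_trichotomy a b with h' | h' | h'
        · exact Or.inr (hL b hb a h').1
        · exact absurd (by rw [h']) hxy
        · exact Or.inl (hL a ha b h').1)
    have hqp : q₀ ≤ p := (hq₀ q (mem_insert _ _)).trans hq
    obtain ⟨q', hq', H⟩ := distrib_of_closed hinf hP (hIio ξ) q₀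
      (fun (η : Iio ξ) q => ∃ γ : κ.ord.ToType, ∀ r ≤ q, ∀ ζ, γ < ζ → ∀ S, RowDec c r ζ S →
        (S ∩ d '' (B η.1).1).Infinite)
      (fun η q q' hqq' hh => by
        obtain ⟨γ, hγ⟩ := hh
        exact ⟨γ, fun r hr => hγ r (hr.trans hqq')⟩)
      (fun η q₁ hq₁ => by
        obtain ⟨q₂, hq₂, γ, hγ⟩ := star hreg hunc hP c hno0 (himg _ (B η.1).2) (hq₁.trans hqp)
        exact ⟨q₂, hq₂, γ, hγ⟩)
    choose γ hγ using H
    obtain ⟨γ', hγ'⟩ := bounded hreg (hIio ξ) γ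
    obtain ⟨γ'', hγ''⟩ := bounded hreg (hIio ξ) (fun η => (h η.1).2)
    obtain ⟨r, hr, ζ, hζ, S, hS, hES⟩ := hE (max δ (max γ' γ'')) q' (hq'.trans hqp)
    have hSS : Sx (r, ζ) = S := by
      ext n
      constructor
      · intro hn
        by_contra hcon
        exact (hS n).2 hcon r le_rfl hn
      · exact (hS n).1
    refine ⟨(r, ζ), ⟨hr.trans (hq'.trans (hq₀ q (mem_insert _ _))),
      (le_max_left _ _).trans_lt hζ, ?_, ?_⟩, fun η hη => ⟨?_, ?_⟩, fun η hη => ?_⟩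
    · rw [hSS]
      exact hS
    · rw [hSS]
      exact hES
    · exact hr.trans (hq'.trans (hq₀ _ (mem_insert_of_mem _ ⟨η, hη, rfl⟩)))
    · exact (hγ'' ⟨η, hη⟩).trans (((le_max_right _ _).trans (le_max_right _ _)).trans_lt hζ)
    · change (Sx (r, ζ) ∩ d '' (B η).1).Nonempty
      rw [hSS]
      exact (hγ ⟨η, hη⟩ r hr ζ ((hγ' ⟨η, hη⟩).trans
        (((le_max_left _ _).trans (le_max_right _ _)).trans_lt hζ)) S hS).nonempty
  have key := playG_spec (K' := κ.ord.ToType) H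
  -- the strategy
  let ext : ∀ ξ : κ.ord.ToType, (Iio ξ → {B : Set ℕ // B.Infinite}) →
      κ.ord.ToType → {B : Set ℕ // B.Infinite} :=
    fun ξ B η => if h : η < ξ then B ⟨η, h⟩ else ⟨univ, infinite_univ⟩
  let F : ∀ ξ : κ.ord.ToType, (Iio ξ → {B : Set ℕ // B.Infinite}) → Set ℕ := fun ξ B =>
    {n | d n ∈ Sx (playG U L V (ext ξ B) ξ)}
  have hF : ∀ (B : κ.ord.ToType → {B : Set ℕ // B.Infinite}) (ξ : κ.ord.ToType),
      F ξ (fun ζ => B ζ.1) = {n | d n ∈ Sx (playG U L V B ξ)} := by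
    intro B ξ
    have h1 : playG U L V (ext ξ (fun ζ => B ζ.1)) ξ = playG U L V B ξ := by
      refine playG_local U L V (fun η hη => ?_)
      simp only [ext]
      rw [dif_pos hη]
    simp only [F]
    rw [h1]
  have hlose : ¬ ∀ B : κ.ord.ToType → {B : Set ℕ // B.Infinite},
      (∀ ξ η : κ.ord.ToType, η < ξ → (F ξ (fun ζ => B ζ.1) ∩ (B η).1).Nonempty) ∧
      ∀ C : Set ℕ, C.Infinite → ∀ f : α.ToType → κ.ord.ToType, StrictMono f →
        ∃ i, ¬ C ⊆ F (f i) (fun ζ => B ζ.1) := fun h => hn ⟨F, h⟩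
  obtain ⟨B, hB⟩ := not_forall.1 hlose
  have h1 : ∀ ξ η : κ.ord.ToType, η < ξ → (F ξ (fun ζ => B ζ.1) ∩ (B η).1).Nonempty := by
    intro ξ η hη
    rw [hF]
    obtain ⟨_, hnS, m, hm, rfl⟩ := (key B ξ).2.2 η hη
    exact ⟨m, hnS, hm⟩
  rw [not_and] at hB
  have h2 := hB h1
  push Not at h2
  obtain ⟨C, hC, f, hf, hCf⟩ := h2
  have hακ : #α.ToType < κ := by
    rw [mk_toType]
    exact lt_ord.1 hα
  obtain ⟨q', hq'⟩ := hP (insert q (range fun i => (playG U L V B (f i)).1))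
    ((mk_insert_le).trans_lt (add_lt_of_lt hinf (mk_range_le.trans_lt hακ)
      (one_lt_aleph0.trans hunc))) (by
    rintro x (rfl | ⟨a, rfl⟩) y (rfl | ⟨b, rfl⟩) hxy
    · exact absurd rfl hxy
    · exact Or.inr (key B (f b)).1.1
    · exact Or.inl (key B (f a)).1.1
    · rcases lt_trichotomy a b with h' | h' | h'
      · exact Or.inr ((key B (f b)).2.1 (f a) (hf h')).1
      · exact absurd (by rw [h']) hxy
      · exact Or.inl ((key B (f a)).2.1 (f b) (hf h')).1)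
  refine ⟨q', hq' q (mem_insert _ _), d '' C, himg C hC, ?_,
    fun i => (playG U L V B (f i)).2, fun i j hij => ((key B (f j)).2.1 (f i) (hf hij)).2,
    fun i => (key B (f i)).1.2.1, fun i => ⟨Sx (playG U L V B (f i)), ?_, ?_, ?_⟩⟩
  · rintro _ ⟨n, _, rfl⟩
    exact hdD n
  · exact (key B (f i)).1.2.2.1.mono (hq' _ (mem_insert_of_mem _ ⟨i, rfl⟩))
  · rintro _ ⟨n, hn, rfl⟩
    have h3 := hCf i hn
    rw [hF] at h3
    exact h3
  · exact (key B (f i)).1.2.2.2

end Pool.Agent.H98.Polar
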