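import Pool.Agent.H98.WC.Block

/-!
Fewer than `h` blocks, for each of which Builder does not win, can be put together.
-/

open Cardinal Ordinal Set

namespace Pool.Agent.H98.Polar

theorem blocks {κ : Cardinal.{0}} (hreg : κ.IsRegular) (hunc : ℵ₀ < κ) {P : Type} [Preorder P]
    (hP : ClosedPoset κ P) (c : SetName P (κ.ord.ToType × ℕ)) {p : P}
    (hno : ∀ r ≤ p, ¬ fHom κ κ.ord false c r) {α : Ordinal.{0}} (hα : α < κ.ord)
    {T : Type} [LinearOrder T] [WellFoundedLT T] (hTh : #T < hNumber) (hTκ : #T < κ)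
    (ρ : α.ToType → T) (hρ : Monotone ρ) (β : T → Ordinal.{0}) (hβ : ∀ t, β t < κ.ord)
    (hnβ : ∀ t, ¬ BuilderWins κ (β t)) (w : ∀ t, {i // ρ i = t} → (β t).ToType)
    (hw : ∀ t, StrictMono (w t)) :
    ∃ r ≤ p, fHom κ α true c r := by
  classical
  have hNκ : #ℕ < κ := by rw [mk_nat]; exact hunc
  have hNh : #ℕ < hNumber := by rw [mk_nat]; exact aleph0_lt_hNumber
  have hακ : #α.ToType < κ := by
    rw [mk_toType]
    exact lt_ord.1 hα
  have dP : ∀ {σ : Type}, #σ < κ → Distrib P σ := fun hσ =>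
    distrib_of_closed hreg.aleph0_le hP hσ
  -- some element of `κ`
  have hne : Nonempty κ.ord.ToType := by
    obtain ⟨γ, -⟩ := bounded hreg (σ := Empty) (by simp [hreg.pos]) (fun x => x.elim)
    exact ⟨γ⟩
  obtain ⟨E, hE⟩ : ∃ E : ℕ → Finset ℕ, Function.Surjective E := exists_surjective_nat _
  let code : Finset ℕ → ℕ := Function.surjInv hE
  have hcode : ∀ F, E (code F) = F := Function.surjInv_eq hE
  let TE : Finset ℕ → κ.ord.ToType → P → Prop := fun F ξ r =>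
    ∃ S : Set ℕ, RowDec c r ξ S ∧ (F : Set ℕ) ⊆ S
  -- decide all `Good E`
  obtain ⟨p₁, hp₁, H₁⟩ := dP hNκ p
    (fun k q => Unb (TE (E k)) q ∨ ∃ γ : κ.ord.ToType, ∀ r ≤ q, ∀ ξ, γ < ξ → ¬ TE (E k) ξ r)
    (fun k q q' hqq' h => h.imp (fun h => h.mono hqq') (fun h => by
      obtain ⟨γ, hγ⟩ := h
      exact ⟨γ, fun r hr => hγ r (hr.trans hqq')⟩))
    (fun k q _ => by
      by_cases hu : Unb (TE (E k)) q
      · exact ⟨q, le_rfl, Or.inl hu⟩
      · obtain ⟨q', hq', γ, hγ⟩ := not_unb hu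
        exact ⟨q', hq', Or.inr ⟨γ, hγ⟩⟩)
  let Good : Finset ℕ → Prop := fun F => Unb (TE F) p₁
  have hbad : ∀ F, ∃ γ : κ.ord.ToType, ¬ Good F → ∀ r ≤ p₁, ∀ ξ, γ < ξ → ¬ TE F ξ r := by
    intro F
    have h1 := H₁ (code F)
    rw [hcode] at h1
    rcases h1 with h1 | ⟨γ, hγ⟩
    · exact ⟨Classical.arbitrary _, fun h2 => absurd h1 h2⟩
    · exact ⟨γ, fun _ => hγ⟩
  choose γF hγF using hbad
  have hFκ : #(Finset ℕ) < κ := by
    have : #(Finset ℕ) = ℵ₀ := mk_eq_aleph0 _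
    rw [this]
    exact hunc
  obtain ⟨γ₀, hγ₀⟩ := bounded hreg hFκ γF
  have hgood_empty : Good ∅ := by
    intro γ q hq
    obtain ⟨ξ, hξ⟩ := bounded hreg (σ := Unit) (by
      simpa using one_lt_aleph0.trans hunc) (fun _ => γ)
    obtain ⟨r, hr, S, hS⟩ := exists_rowDec (dP hNκ) c q ξ
    exact ⟨r, hr, ξ, hξ (), S, hS, by simp⟩
  have hgood_succ : ∀ F, Good F → {n | ¬ Good (insert n F)}.Finite := by
    intro F hF
    by_contra hinf
    obtain ⟨q, hq, γ, hγ⟩ := star hreg hunc hP c hno (B := {n | ¬ Good (insert n F)}) hinf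
      hp₁
    obtain ⟨r, hr, ξ, hξ, S, hS, hFS⟩ := hF (max γ γ₀) q hq
    have hi := hγ r hr ξ ((le_max_left _ _).trans_lt hξ) S hS
    obtain ⟨n, hnS, hnB⟩ := hi.nonempty
    refine hγF (insert n F) hnB r (hr.trans hq) ξ
      ((hγ₀ _).trans ((le_max_right _ _).trans_lt hξ)) ⟨S, hS, ?_⟩
    intro x hx
    rw [Finset.coe_insert] at hx
    rcases hx with rfl | hx
    · exact hnS
    · exact hFS hx
  -- the thread
  let ι := T ×ₗ ℕ
  have hικ : #ι < κ := by
    have : #ι = #T * #ℕ := by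
      exact (mul_def T ℕ).symm
    rw [this]
    exact mul_lt_of_lt hreg.aleph0_le hTκ hNκ
  have hιh : #ι < hNumber := by
    have : #ι = #T * #ℕ := by
      exact (mul_def T ℕ).symm
    rw [this]
    exact mul_lt_of_lt aleph0_lt_hNumber.le hTh hNh
  let Ei : ι → Finset ℕ := fun i => E (ofLex i).2
  let X : Type := P × (α.ToType → κ.ord.ToType)
  let R : ι → (ι → X) → InfSet → X → Prop := fun i h B x =>
    x.1 ≤ p₁ ∧ (∀ j < i, x.1 ≤ (h j).1 ∧
      ∀ a b, ρ a = (ofLex j).1 → ρ b = (ofLex i).1 → (h j).2 a < x.2 b) ∧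
      (∀ a b, ρ a = (ofLex i).1 → ρ b = (ofLex i).1 → a < b → x.2 a < x.2 b) ∧
      ∃ C : Set ℕ, AlmostSub B.s C ∧ ∀ a, ρ a = (ofLex i).1 →
        ∃ S, RowDec c x.1 (x.2 a) S ∧ C ⊆ S ∧ (Good (Ei i) → (Ei i : Set ℕ) ⊆ S)
  have hR : ∀ i h q q' x, q' ≤ q → R i h q x → R i h q' x := by
    rintro i h q q' x hq ⟨h1, h2, h3, C, h4, h5⟩
    exact ⟨h1, h2, h3, C, AlmostSub.trans hq h4, h5⟩
  have hL : ∀ i h h' q x, (∀ j < i, h j = h' j) → R i h q x → R i h' q x := by
    rintro i h h' q x hhh ⟨h1, h2, h3⟩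
    exact ⟨h1, fun j hj => by rw [← hhh j hj]; exact h2 j hj, h3⟩
  have hchain : ∀ (i : ι) (h : ι → X) (B : InfSet),
      (∀ j < i, R j h B (h j)) →
      ∃ q ≤ p₁, ∀ j < i, q ≤ (h j).1 := by
    intro i h B hj
    obtain ⟨r, hr⟩ := hP (insert p₁ ((fun j => (h j).1) '' Iio i))
      ((mk_insert_le).trans_lt (add_lt_of_lt hreg.aleph0_le
        (mk_image_le.trans_lt ((mk_set_le _).trans_lt hικ)) (one_lt_aleph0.trans hunc))) (by
        rintro x (rfl | ⟨a, ha, rfl⟩) y (rfl | ⟨b, hb, rfl⟩) hxy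
        · exact absurd rfl hxy
        · exact Or.inr (hj b hb).1
        · exact Or.inl (hj a ha).1
        · rcases lt_trichotomy a b with h' | h' | h'
          · exact Or.inr ((hj b hb).2.1 a h').1
          · exact absurd (by rw [h']) hxy
          · exact Or.inl ((hj a ha).2.1 b h').1)
    exact ⟨r, hr _ (mem_insert _ _), fun j hj => hr _ (mem_insert_of_mem _ ⟨j, hj, rfl⟩)⟩
  have hS : ∀ i h q, q ≤ (⟨univ, infinite_univ⟩ : InfSet) → (∀ j < i, R j h q (h j)) →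
      ∃ q' ≤ q, ∃ x, R i h q' x := by
    intro i h B _ hj
    obtain ⟨q, hq, hqj⟩ := hchain i h B hj
    obtain ⟨δ, hδ⟩ := bounded hreg (σ := Iio i × α.ToType) (by
        rw [mk_prod, Cardinal.lift_id, Cardinal.lift_id]
        exact mul_lt_of_lt hreg.aleph0_le ((mk_set_le _).trans_lt hικ) hακ)
      (fun j => (h j.1.1).2 j.2)
    have hE' : ∃ F : Finset ℕ, Good F ∧ (Good (Ei i) → F = Ei i) := by
      by_cases hg : Good (Ei i)
      · exact ⟨Ei i, hg, fun _ => rfl⟩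
      · exact ⟨∅, hgood_empty, fun h => absurd h hg⟩
    obtain ⟨F, hF, hFE⟩ := hE'
    obtain ⟨r, hr, C, hC, hCB, g, hg, hδg, hrow⟩ := block hreg hunc hP c (p := p₁)
      (fun r hr => hno r (hr.trans hp₁)) (E := F) hF (D := B.s) B.inf (hβ (ofLex i).1)
      (hnβ (ofLex i).1) δ hq
    let x2 : α.ToType → κ.ord.ToType := fun a =>
      if ha : ρ a = (ofLex i).1 then g (w _ ⟨a, ha⟩) else δ
    have hx2 : ∀ a (ha : ρ a = (ofLex i).1), x2 a = g (w _ ⟨a, ha⟩) := fun a ha => dif_pos ha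
    refine ⟨⟨C, hC⟩, AlmostSub.of_subset hCB, (r, x2), hr.trans hq, fun j hji => ⟨?_, ?_⟩,
      ?_, C, AlmostSub.refl C, fun a ha => ?_⟩
    · exact hr.trans (hqj j hji)
    · intro a b _ hb
      change (h j).2 a < x2 b
      rw [hx2 b hb]
      exact (hδ (⟨j, hji⟩, a)).trans (hδg _)
    · intro a b ha hb hab
      change x2 a < x2 b
      rw [hx2 a ha, hx2 b hb]
      exact hg (hw _ hab)
    · obtain ⟨S, hS1, hS2, hS3⟩ := hrow (w _ ⟨a, ha⟩)
      refine ⟨S, ?_, hS2, fun hgd => ?_⟩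
      · change RowDec c r (x2 a) S
        rw [hx2 a ha]
        exact hS1
      · rw [← hFE hgd]
        exact hS3
  have hneX : Nonempty X := ⟨(p, fun _ => Classical.arbitrary _)⟩
  obtain ⟨B₁, -, h, hh⟩ := exists_thread (p := (⟨univ, infinite_univ⟩ : InfSet)) hR hL hS
    (fun i => distrib_infSet ((mk_set_le _).trans_lt hιh)) (distrib_infSet hιh)
  -- the final condition
  obtain ⟨p₂, hp₂⟩ := hP (insert p₁ (range fun j => (h j).1))
    ((mk_insert_le).trans_lt (add_lt_of_lt hreg.aleph0_le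
      (mk_range_le.trans_lt hικ) (one_lt_aleph0.trans hunc))) (by
      rintro x (rfl | ⟨a, rfl⟩) y (rfl | ⟨b, rfl⟩) hxy
      · exact absurd rfl hxy
      · exact Or.inr (hh b).1
      · exact Or.inl (hh a).1
      · rcases lt_trichotomy a b with h' | h' | h'
        · exact Or.inr ((hh b).2.1 a h').1
        · exact absurd (by rw [h']) hxy
        · exact Or.inl ((hh a).2.1 b h').1)
  have hp₂1 : p₂ ≤ p₁ := hp₂ _ (mem_insert _ _)
  have hp₂j : ∀ j, p₂ ≤ (h j).1 := fun j => hp₂ _ (mem_insert_of_mem _ ⟨j, rfl⟩)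
  have hrow : ∀ i : ι, ∃ C : Set ℕ, AlmostSub B₁.s C ∧ ∀ a, ρ a = (ofLex i).1 →
      ∃ S, RowDec c (h i).1 ((h i).2 a) S ∧ C ⊆ S ∧ (Good (Ei i) → (Ei i : Set ℕ) ⊆ S) :=
    fun i => (hh i).2.2.2
  choose C hCalm hCrow using hrow
  choose m hm using fun i => (hCalm i).exists_bound
  -- domination
  let g : T → ℕ → ℕ := fun s n =>
    (Finset.range (n + 1)).powerset.sup (fun F => m (toLex (s, code F)))
  have hg : ∀ s n (F : Finset ℕ), F ⊆ Finset.range (n + 1) →
      m (toLex (s, code F)) ≤ g s n := by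
    intro s n F hF
    exact Finset.le_sup (f := fun F => m (toLex (s, code F))) (Finset.mem_powerset.2 hF)
  obtain ⟨B₂, hB₂, hB₂₁, hdom⟩ := dominate hTh B₁.s B₁.inf g
  have hnext : ∀ (F : Finset ℕ) (k : ℕ), ∃ b, Good F → b ∈ B₂ ∧ k < b ∧ Good (insert b F) := by
    intro F k
    by_cases hF : Good F
    · have hfin := hgood_succ F hF
      have hinf : (B₂ \ ({n | ¬ Good (insert n F)} ∪ Iic k)).Infinite :=
        hB₂.sdiff (hfin.union (finite_Iic k))
      obtain ⟨b, hb, hb'⟩ := hinf.nonempty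
      refine ⟨b, fun _ => ⟨hb, ?_, ?_⟩⟩
      · by_contra hcon
        exact hb' (Or.inr (not_lt.1 hcon))
      · by_contra hcon
        exact hb' (Or.inl hcon)
    · exact ⟨0, fun h => absurd h hF⟩
  choose nx hnx using hnext
  let st : ℕ → Finset ℕ × ℕ := fun n => Nat.rec ({nx ∅ 0}, nx ∅ 0)
    (fun _ x => (insert (nx x.1 x.2) x.1, nx x.1 x.2)) n
  have hst : ∀ n, st (n + 1) = (insert (nx (st n).1 (st n).2) (st n).1,
    nx (st n).1 (st n).2) := fun n => rfl
  have hgoodst : ∀ n, Good (st n).1 := by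
    intro n
    induction n with
    | zero => exact (hnx ∅ 0 hgood_empty).2.2
    | succ n ih => rw [hst]; exact (hnx _ _ ih).2.2
  let b : ℕ → ℕ := fun n => (st n).2
  have hbsucc : ∀ n, b (n + 1) = nx (st n).1 (st n).2 := fun n => rfl
  have hbB : ∀ n, b n ∈ B₂ := by
    intro n
    cases n with
    | zero => exact (hnx ∅ 0 hgood_empty).1
    | succ n => rw [hbsucc]; exact (hnx _ _ (hgoodst n)).1
  have hbmono : StrictMono b :=
    strictMono_nat_of_lt_succ (fun n => by rw [hbsucc]; exact (hnx _ _ (hgoodst n)).2.1)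
  have hFmem : ∀ n x, x ∈ (st n).1 ↔ ∃ j ≤ n, x = b j := by
    intro n
    induction n with
    | zero =>
      intro x
      change x ∈ ({nx ∅ 0} : Finset ℕ) ↔ _
      rw [Finset.mem_singleton]
      constructor
      · rintro rfl
        exact ⟨0, le_rfl, rfl⟩
      · rintro ⟨j, hj, rfl⟩
        rw [Nat.le_zero.1 hj]
        rfl
    | succ n ih =>
      intro x
      rw [hst]
      dsimp only
      rw [Finset.mem_insert, ih]
      constructor
      · rintro (rfl | ⟨j, hj, rfl⟩)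
        · exact ⟨n + 1, le_rfl, rfl⟩
        · exact ⟨j, by omega, rfl⟩
      · rintro ⟨j, hj, rfl⟩
        rcases Nat.lt_or_ge j (n + 1) with h' | h'
        · exact Or.inr ⟨j, by omega, rfl⟩
        · have : j = n + 1 := by omega
          subst this
          exact Or.inl rfl
  have hB₃ : (range b).Infinite := infinite_range_of_injective hbmono.injective
  choose N hN using hdom
  refine ⟨p₂, hp₂1.trans hp₁, ?_⟩
  let idx : T → ι := fun s => toLex (s, code (st (N s)).1)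
  have hidx : StrictMono idx := by
    intro s t hst
    rw [Prod.Lex.lt_iff]
    exact Or.inl hst
  refine fHom_of_fun c hB₃ (fun a => (h (idx (ρ a))).2 a) ?_ ?_
  · intro a a' haa
    change (h (idx (ρ a))).2 a < (h (idx (ρ a'))).2 a'
    rcases (hρ haa.le).lt_or_eq with hlt | heq
    · exact ((hh (idx (ρ a'))).2.1 (idx (ρ a)) (hidx hlt)).2 a a' rfl rfl
    · rw [← heq]
      exact (hh (idx (ρ a))).2.2.1 a a' rfl heq.symm haa
  · intro a n hn
    obtain ⟨S, hSdec, hCS, hSE⟩ := hCrow (idx (ρ a)) a rfl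
    refine fMem_mono (hp₂j (idx (ρ a))) ((hSdec n).1 ?_)
    obtain ⟨j, rfl⟩ := hn
    have hEi : Ei (idx (ρ a)) = (st (N (ρ a))).1 := hcode _
    by_cases hj : j ≤ N (ρ a)
    · have hmem : b j ∈ (Ei (idx (ρ a)) : Set ℕ) := by
        rw [hEi, Finset.mem_coe, hFmem]
        exact ⟨j, hj, rfl⟩
      refine hSE ?_ hmem
      rw [hEi]
      exact hgoodst _
    · rw [not_le] at hj
      have hlt : g (ρ a) (b (N (ρ a))) < b j :=
        hN (ρ a) (b (N (ρ a))) (hbB _) (hbmono.le_apply) (b j) (hbB j) (hbmono hj)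
      refine hCS (hm (idx (ρ a)) (b j) (hB₂₁ (hbB j)) (le_trans (hg (ρ a) (b (N (ρ a))) _ ?_)
        hlt.le))
      intro x hx
      obtain ⟨k, hk, rfl⟩ := (hFmem _ _).1 hx
      rw [Finset.mem_range]
      exact Nat.lt_succ_of_le (hbmono.monotone hk)

end Pool.Agent.H98.Polar
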