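import Pool.Agent.H98.PolarClosed

/-!
The game of length `κ` for the unbalanced polarized relation.
-/

open Cardinal Ordinal Set

namespace Pool.Agent.H98.Polar

/-- Builder has a winning strategy in the following game of length `κ`: at stage `ξ` Builder, who
knows the infinite sets `B η`, `η < ξ`, played by Spoiler, plays a set `F ξ B` which meets all of
them, and then Spoiler plays the infinite set `B ξ`; Builder loses if in the end some infinite
set `C` is contained in Builder's sets at stages `f i`, `i < α`, for a strictly increasing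
`f : α → κ`. -/
def BuilderWins (κ : Cardinal.{0}) (α : Ordinal.{0}) : Prop :=
  ∃ F : ∀ ξ : κ.ord.ToType, (Iio ξ → {B : Set ℕ // B.Infinite}) → Set ℕ,
    ∀ B : κ.ord.ToType → {B : Set ℕ // B.Infinite},
      (∀ ξ η : κ.ord.ToType, η < ξ → (F ξ (fun ζ => B ζ.1) ∩ (B η).1).Nonempty) ∧
      ∀ C : Set ℕ, C.Infinite → ∀ f : α.ToType → κ.ord.ToType, StrictMono f →
        ∃ i, ¬ C ⊆ F (f i) (fun ζ => B ζ.1)

end Pool.Agent.H98.Polar
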