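import Pool.Agent.H98.WC.Block

/-!
The relation in the ground model: if it fails, Builder wins.
-/

open Cardinal Ordinal Set

namespace Pool.Agent.H98.Polar

/-- The relation `(κ, ω) → (κ α; ω ω)`: every colouring `c : κ × ω → 2` has a set of order type
`κ` and an infinite `B ⊆ ω` on which it is constantly `0`, or a set of order type `α` and an
infinite `B` on which it is constantly `1`. -/
def Unbalanced (κ : Cardinal.{0}) (α : Ordinal.{0}) : Prop :=
  ∀ c : κ.ord.ToType → ℕ → Bool,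
    (∃ f : κ.ord.ToType → κ.ord.ToType, StrictMono f ∧
      ∃ B : Set ℕ, B.Infinite ∧ ∀ i, ∀ n ∈ B, c (f i) n = false) ∨
    ∃ f : α.ToType → κ.ord.ToType, StrictMono f ∧
      ∃ B : Set ℕ, B.Infinite ∧ ∀ i, ∀ n ∈ B, c (f i) n = true

/-- If the relation fails in the ground model, Builder wins. -/
theorem wins_of_not_unbalanced {κ : Cardinal.{0}} (hreg : κ.IsRegular) (hunc : ℵ₀ < κ)
    {α : Ordinal.{0}} (h : ¬ Unbalanced κ α) : BuilderWins κ α := by
  classical
  unfold Unbalanced at h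
  push Not at h
  obtain ⟨c, h0, h1⟩ := h
  have hne : Nonempty κ.ord.ToType := by
    obtain ⟨γ, -⟩ := bounded hreg (σ := Empty) (by simp [hreg.pos]) (fun x => x.elim)
    exact ⟨γ⟩
  have hIio : ∀ ξ : κ.ord.ToType, #(Iio ξ) < κ := fun ξ => mk_Iio_toType_ord_lt ξ
  have hstar : ∀ B : {B : Set ℕ // B.Infinite}, ∃ γ : κ.ord.ToType, ∀ ξ, γ < ξ →
      ∃ n ∈ B.1, c ξ n = true := by
    intro B
    by_contra hcon
    push Not at hcon
    have H : ∀ (ξ : κ.ord.ToType) (_ : κ.ord.ToType → {B : Set ℕ // B.Infinite})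
        (h : κ.ord.ToType → κ.ord.ToType),
        (∀ η < ξ, ∀ n ∈ B.1, c (h η) n = false) → (∀ η < ξ, ∀ ζ < η, h ζ < h η) →
        ∃ x, (∀ n ∈ B.1, c x n = false) ∧ (∀ η < ξ, h η < x) ∧ ∀ η < ξ, True := by
      intro ξ _ h _ _
      obtain ⟨γ, hγ⟩ := bounded hreg (hIio ξ) (fun η => h η.1)
      obtain ⟨x, hx, hx'⟩ := hcon γ
      exact ⟨x, fun n hn => by simpa using hx' n hn, fun η hη => (hγ ⟨η, hη⟩).trans hx,
        fun _ _ => trivial⟩
    have key := playG_spec (K' := κ.ord.ToType)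
      (U := fun x : κ.ord.ToType => ∀ n ∈ B.1, c x n = false) (L := fun x y => y < x)
      (V := fun _ _ => True) H (fun _ => B)
    obtain ⟨i, n, hn, hin⟩ := h0 _ (fun i j hij => (key j).2.1 i hij) B.1 B.2
    exact hin ((key i).1 n hn)
  choose γB hγB using hstar
  let V : κ.ord.ToType → {B : Set ℕ // B.Infinite} → Prop := fun x B =>
    ({n | c x n = true} ∩ B.1).Nonempty
  have H : ∀ (ξ : κ.ord.ToType) (B : κ.ord.ToType → {B : Set ℕ // B.Infinite})
      (h : κ.ord.ToType → κ.ord.ToType),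
      (∀ η < ξ, True) → (∀ η < ξ, ∀ ζ < η, h ζ < h η) →
      ∃ x, True ∧ (∀ η < ξ, h η < x) ∧ ∀ η < ξ, V x (B η) := by
    intro ξ B h _ _
    obtain ⟨γ, hγ⟩ := bounded hreg (hIio ξ) (fun η => max (h η.1) (γB (B η.1)))
    obtain ⟨x, hx⟩ := bounded hreg (σ := Unit) (by simpa using one_lt_aleph0.trans hunc)
      (fun _ => γ)
    refine ⟨x, trivial, fun η hη => ?_, fun η hη => ?_⟩
    · exact ((le_max_left _ _).trans_lt (hγ ⟨η, hη⟩)).trans (hx ())
    · obtain ⟨n, hn, hn'⟩ := hγB (B η) x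
        (((le_max_right _ _).trans_lt (hγ ⟨η, hη⟩)).trans (hx ()))
      exact ⟨n, hn', hn⟩
  let U : κ.ord.ToType → Prop := fun _ => True
  let L : κ.ord.ToType → κ.ord.ToType → Prop := fun x y => y < x
  have key := playG_spec (K' := κ.ord.ToType) (U := U) (L := L) (V := V) H
  let ext : ∀ ξ : κ.ord.ToType, (Iio ξ → {B : Set ℕ // B.Infinite}) →
      κ.ord.ToType → {B : Set ℕ // B.Infinite} :=
    fun ξ B η => if h : η < ξ then B ⟨η, h⟩ else ⟨univ, infinite_univ⟩
  let F : ∀ ξ : κ.ord.ToType, (Iio ξ → {B : Set ℕ // B.Infinite}) → Set ℕ := fun ξ B =>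
    {n | c (playG U L V (ext ξ B) ξ) n = true}
  have hF : ∀ (B : κ.ord.ToType → {B : Set ℕ // B.Infinite}) (ξ : κ.ord.ToType),
      F ξ (fun ζ => B ζ.1) = {n | c (playG U L V B ξ) n = true} := by
    intro B ξ
    have h1 : playG U L V (ext ξ (fun ζ => B ζ.1)) ξ = playG U L V B ξ := by
      refine playG_local U L V (fun η hη => ?_)
      simp only [ext]
      rw [dif_pos hη]
    simp only [F]
    rw [h1]
  refine ⟨F, fun B => ⟨fun ξ η hη => ?_, fun C hC f hf => ?_⟩⟩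
  · rw [hF]
    exact (key B ξ).2.2 η hη
  · obtain ⟨i, n, hn, hin⟩ := h1 (fun i => playG U L V B (f i))
      (fun i j hij => (key B (f j)).2.1 (f i) (hf hij)) C hC
    refine ⟨i, fun hcon => hin ?_⟩
    have h2 := hcon hn
    rw [hF] at h2
    exact h2

end Pool.Agent.H98.Polar
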