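import Pool.Agent.H98.WC.Defs
import Pool.Agent.H98.PolarLuzin

/-!
A winning strategy gives the failure of the relation in the Levy extensions.
-/

open Cardinal Ordinal Set

namespace Pool.Agent.H98.Polar

namespace WCA

variable {K M : Type} [LinearOrder K]

open scoped Classical in
/-- a set, or `ω` if it is finite -/
noncomputable def toInf (S : Set ℕ) : {B : Set ℕ // B.Infinite} :=
  if hi : S.Infinite then ⟨S, hi⟩ else ⟨univ, infinite_univ⟩

/-- the infinite set coded by the block of `η` -/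
noncomputable def dec (e : K × ℕ → K) (a₁ : M) (h : K → Option M) (η : K) :
    {B : Set ℕ // B.Infinite} :=
  toInf {n | h (e (η, n)) = some a₁}

/-- the row at `ξ` -/
noncomputable def row (F : ∀ ξ : K, (Iio ξ → {B : Set ℕ // B.Infinite}) → Set ℕ)
    (e : K × ℕ → K) (a₁ : M) (h : K → Option M) (ξ : K) : Set ℕ :=
  F ξ (fun ζ => dec e a₁ h ζ.1)

theorem dec_local {e : K × ℕ → K} {a₁ : M} {h h' : K → Option M} {η : K}
    (hh : ∀ n, h (e (η, n)) = h' (e (η, n))) : dec e a₁ h η = dec e a₁ h' η := by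
  unfold dec
  have h1 : {n | h (e (η, n)) = some a₁} = {n | h' (e (η, n)) = some a₁} := by
    ext n
    simp only [mem_ofPred_eq, hh n]
  rw [h1]

theorem row_local (F : ∀ ξ : K, (Iio ξ → {B : Set ℕ // B.Infinite}) → Set ℕ)
    {e : K × ℕ → K} {a₁ : M} {h h' : K → Option M} {ξ : K}
    (hh : ∀ η < ξ, ∀ n, h (e (η, n)) = h' (e (η, n))) : row F e a₁ h ξ = row F e a₁ h' ξ := by
  unfold row
  congr 1
  funext ζ
  exact dec_local (hh ζ.1 ζ.2)

end WCA

open WCA

section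

variable {κ μ : Cardinal.{0}}

/-- the name of the bad colouring -/
def gameName (F : ∀ ξ : κ.ord.ToType, (Iio ξ → {B : Set ℕ // B.Infinite}) → Set ℕ)
    (e : κ.ord.ToType × ℕ → κ.ord.ToType) (a₁ : μ.ord.ToType) :
    SetName (Levy κ μ) (κ.ord.ToType × ℕ) :=
  fun x => {p | (∀ η < x.1, ∀ n, p.1 (e (η, n)) ≠ none) ∧ x.2 ∈ row F e a₁ p.1 x.1}

theorem mem_gameName {F : ∀ ξ : κ.ord.ToType, (Iio ξ → {B : Set ℕ // B.Infinite}) → Set ℕ}
    {e : κ.ord.ToType × ℕ → κ.ord.ToType} {a₁ : μ.ord.ToType} {p : Levy κ μ}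
    {ξ : κ.ord.ToType} (hp : ∀ η < ξ, ∀ n, p.1 (e (η, n)) ≠ none) {n : ℕ} :
    fMem (ξ, n) (gameName F e a₁) p ↔ n ∈ row F e a₁ p.1 ξ := by
  constructor
  · intro h
    obtain ⟨r, hr, s, ⟨hs, hsn⟩, hrs⟩ := h p le_rfl
    dsimp only at hs hsn
    have h1 : row F e a₁ p.1 ξ = row F e a₁ s.1 ξ := by
      refine row_local F (fun η hη n => ?_)
      rw [← levy_agree hr (hp η hη n), ← levy_agree hrs (hs η hη n)]
    rw [h1]
    exact hsn
  · intro h q hq
    exact ⟨q, le_rfl, p, ⟨hp, h⟩, hq⟩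

/-- extension of a condition to a small set -/
theorem exists_ext (hinf : ℵ₀ ≤ κ) (p : Levy κ μ) (A : Set κ.ord.ToType) (hA : #A < κ)
    (v : κ.ord.ToType → μ.ord.ToType) :
    ∃ q ≤ p, ∀ x ∈ A, q.1 x ≠ none ∧ (p.1 x = none → q.1 x = some (v x)) := by
  classical
  let g : κ.ord.ToType → Option μ.ord.ToType := fun x =>
    if x ∈ A ∧ p.1 x = none then some (v x) else p.1 x
  have hcard : #{x // g x ≠ none} < κ := by
    have hsub : {x | g x ≠ none} ⊆ {x | p.1 x ≠ none} ∪ A := by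
      intro x hx
      by_cases h : x ∈ A
      · exact Or.inr h
      · refine Or.inl ?_
        have : g x = p.1 x := if_neg (fun h' => h h'.1)
        exact fun h0 => hx (this.trans h0)
    refine (mk_le_mk_of_subset hsub).trans_lt ((mk_union_le _ _).trans_lt ?_)
    exact add_lt_of_lt hinf p.2 hA
  refine ⟨⟨g, hcard⟩, fun x a ha => ?_, fun x hx => ?_⟩
  · change g x = some a
    have : g x = p.1 x := if_neg (fun h' => by rw [ha] at h'; exact absurd h'.2 (by simp))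
    rw [this]
    exact ha
  · change g x ≠ none ∧ (p.1 x = none → g x = some (v x))
    by_cases h : p.1 x = none
    · have : g x = some (v x) := if_pos ⟨hx, h⟩
      rw [this]
      exact ⟨by simp, fun _ => rfl⟩
    · have : g x = p.1 x := if_neg (fun h' => h h'.2)
      rw [this]
      exact ⟨h, fun h' => absurd h' h⟩

theorem exists_block (hunc : ℵ₀ < κ) {e : κ.ord.ToType × ℕ → κ.ord.ToType}
    (he : Function.Injective e) {a₀ a₁ : μ.ord.ToType} (ha : a₀ ≠ a₁) (p : Levy κ μ)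
    {B : Set ℕ} (hB : B.Infinite) :
    ∃ q ≤ p, ∃ η, (∀ n, q.1 (e (η, n)) ≠ none) ∧ (dec e a₁ q.1 η).1 = B := by
  classical
  have hex : ∃ η, ∀ n, p.1 (e (η, n)) = none := by
    by_contra hcon
    push Not at hcon
    choose m hm using hcon
    have hinj : Function.Injective
        (fun η => (⟨e (η, m η), hm η⟩ : {ξ // p.1 ξ ≠ none})) := by
      intro η η' h
      have h1 := he (congrArg Subtype.val h)
      exact congrArg Prod.fst h1
    have h2 := mk_le_of_injective hinj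
    rw [mk_toType, card_ord] at h2
    exact absurd p.2 (not_lt.2 h2)
  obtain ⟨η, hη⟩ := hex
  obtain ⟨q, hq, hq'⟩ := exists_ext hunc.le p (range fun n : ℕ => e (η, n))
    (mk_range_le.trans_lt (by rw [mk_nat]; exact hunc))
    (fun x => if ∃ n ∈ B, e (η, n) = x then a₁ else a₀)
  refine ⟨q, hq, η, fun n => (hq' _ ⟨n, rfl⟩).1, ?_⟩
  have hset : {n | q.1 (e (η, n)) = some a₁} = B := by
    ext n
    simp only [mem_ofPred_eq]
    rw [(hq' (e (η, n)) ⟨n, rfl⟩).2 (hη n)]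
    by_cases hn : n ∈ B
    · rw [if_pos ⟨n, hn, rfl⟩]
      simp [hn]
    · rw [if_neg]
      · simp only [Option.some.injEq, hn, iff_false]
        exact ha
      · rintro ⟨n', hn', h1⟩
        have h2 := congrArg Prod.snd (he h1)
        dsimp only at h2
        rw [h2] at hn'
        exact hn hn'
  unfold dec
  rw [hset]
  unfold toInf
  rw [dif_pos hB]

end

/-- A winning strategy of Builder gives a failure in every Levy extension. -/
theorem fails_of_wins {κ μ : Cardinal.{0}} (hreg : κ.IsRegular) (hunc : ℵ₀ < κ) (hμ : 2 ≤ μ)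
    {α : Ordinal.{0}} (hα : α < κ.ord) (hW : BuilderWins κ α) (p : Levy κ μ) :
    fNot (fUnbalanced κ α) p := by
  classical
  obtain ⟨F, hF⟩ := hW
  have hinf : ℵ₀ ≤ κ := hreg.aleph0_le
  have hP : ClosedPoset κ (Levy κ μ) := levy_closed hreg _
  have hDN : Distrib (Levy κ μ) ℕ :=
    distrib_of_closed hinf hP (by rw [mk_nat]; exact hunc)
  -- two values
  obtain ⟨a₀, a₁, ha⟩ : ∃ a₀ a₁ : μ.ord.ToType, a₀ ≠ a₁ := by
    have h1 : 1 < #μ.ord.ToType := by
      rw [mk_toType, card_ord]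
      exact lt_of_lt_of_le (by norm_num) hμ
    have h2 : Nontrivial μ.ord.ToType := one_lt_iff_nontrivial.1 h1
    exact exists_pair_ne _
  -- blocks
  obtain ⟨e, he⟩ : ∃ e : κ.ord.ToType × ℕ → κ.ord.ToType, Function.Injective e := by
    have h1 : #(κ.ord.ToType × ℕ) ≤ #κ.ord.ToType := by
      rw [mk_prod, mk_toType, card_ord, Cardinal.lift_id, mk_nat, Cardinal.lift_id]
      exact (mul_eq_left hinf hinf aleph0_ne_zero).le
    obtain ⟨f⟩ := (le_def _ _).1 h1
    exact ⟨f, f.injective⟩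
  have hblock : ∀ ξ : κ.ord.ToType, #{x | ∃ η < ξ, ∃ n : ℕ, e (η, n) = x} < κ := by
    intro ξ
    have hsub : {x | ∃ η < ξ, ∃ n : ℕ, e (η, n) = x} ⊆
        range (fun y : Iio ξ × ℕ => e (y.1.1, y.2)) := by
      rintro x ⟨η, hη, n, rfl⟩
      exact ⟨(⟨η, hη⟩, n), rfl⟩
    refine (mk_le_mk_of_subset hsub).trans_lt (mk_range_le.trans_lt ?_)
    rw [mk_prod, Cardinal.lift_id, Cardinal.lift_id, mk_nat]
    exact mul_lt_of_lt hinf (mk_Iio_toType_ord_lt ξ) hunc
  have htotal : ∀ (p : Levy κ μ) (ξ : κ.ord.ToType),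
      ∃ q ≤ p, ∀ η < ξ, ∀ n, q.1 (e (η, n)) ≠ none := by
    intro p ξ
    obtain ⟨q, hq, hq'⟩ := exists_ext hinf p _ (hblock ξ) (fun _ => a₀)
    exact ⟨q, hq, fun η hη n => (hq' _ ⟨η, hη, n, rfl⟩).1⟩
  let c : SetName (Levy κ μ) (κ.ord.ToType × ℕ) := gameName F e a₁
  have hno0 : ∀ r : Levy κ μ, ¬ fHom κ κ.ord false c r := by
    intro r hr
    obtain ⟨r1, hr1, G, hr1'⟩ := hr r le_rfl
    obtain ⟨r2, hr2, B, hG, hB, hhom⟩ := hr1' r1 le_rfl
    obtain ⟨r3, hr3, B₀, hB₀, hB₀'⟩ := decide_infinite hDN hB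
    obtain ⟨r4, hr4, η, hη, hdec⟩ := exists_block hunc he ha r3 hB₀
    obtain ⟨i₀, hi₀⟩ := bounded hreg (σ := Unit)
      (by simpa using one_lt_aleph0.trans hunc) (fun _ => η)
    have hIic : #(Iic i₀) < κ := by
      have hsub : Iic i₀ ⊆ insert i₀ (Iio i₀) := by
        intro x hx
        rcases (mem_Iic.1 hx).eq_or_lt with h | h
        · exact Or.inl h
        · exact Or.inr h
      refine (mk_le_mk_of_subset hsub).trans_lt ((mk_insert_le).trans_lt ?_)
      exact add_lt_of_lt hinf (mk_Iio_toType_ord_lt i₀) (one_lt_aleph0.trans_le hinf)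
    have hG4 : fIncreasing G r4 := by
      refine ⟨fun i q hq => hG.1 i q (hq.trans (hr4.trans hr3)), fun i j ξ ζ q hq => ?_⟩
      exact hG.2 i j ξ ζ q (hq.trans (hr4.trans hr3))
    obtain ⟨r5, hr5, g, hg, hgmono⟩ := decide_values (distrib_of_closed hinf hP hIic)
      (fun i : Iic i₀ => i.1) hG4
    have hge : ∀ i : κ.ord.ToType, ∀ hi : i ≤ i₀, i ≤ g ⟨i, hi⟩ := by
      intro i
      induction i using WellFoundedLT.induction with
      | ind i ih =>
        intro hi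
        by_contra hcon
        rw [not_le] at hcon
        have h1 := ih (g ⟨i, hi⟩) hcon (hcon.le.trans hi)
        have h2 := hgmono ⟨g ⟨i, hi⟩, hcon.le.trans hi⟩ ⟨i, hi⟩ hcon
        exact absurd h2 (not_lt.2 h1)
    let ξ := g ⟨i₀, mem_Iic.2 le_rfl⟩
    have hξ : η < ξ := (hi₀ ()).trans_le (hge i₀ le_rfl)
    obtain ⟨r6, hr6, htot⟩ := htotal r5 ξ
    have hdec6 : (dec e a₁ r6.1 η).1 = B₀ := by
      rw [← hdec]
      congr 1
      refine dec_local (fun n => ?_)
      exact levy_agree (hr6.trans hr5) (hη n)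
    obtain ⟨n, hnp, hnB⟩ := (hF (fun ζ => dec e a₁ r6.1 ζ)).1 ξ η hξ
    rw [hdec6] at hnB
    have h1 : fMem (ξ, n) c r6 := (mem_gameName htot).2 hnp
    have hle63 : r6 ≤ r3 := hr6.trans (hr5.trans hr4)
    have h2 := hhom i₀ ξ n r6 (hle63.trans hr3)
      (fMem_mono hr6 (hg ⟨i₀, mem_Iic.2 le_rfl⟩)) r6 le_rfl (fMem_mono hle63 (hB₀' n hnB))
    simp only [Bool.false_eq_true, if_false] at h2
    exact h2 r6 le_rfl h1
  have hno1 : ∀ r : Levy κ μ, ¬ fHom κ α true c r := by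
    intro r hr
    obtain ⟨r1, hr1, G, hr1'⟩ := hr r le_rfl
    obtain ⟨r2, hr2, B, hG, hB, hhom⟩ := hr1' r1 le_rfl
    obtain ⟨r3, hr3, B₀, hB₀, hB₀'⟩ := decide_infinite hDN hB
    have hG3 : fIncreasing G r3 := by
      refine ⟨fun i q hq => hG.1 i q (hq.trans hr3), fun i j ξ ζ q hq => ?_⟩
      exact hG.2 i j ξ ζ q (hq.trans hr3)
    have hακ : #α.ToType < κ := by
      rw [mk_toType]
      exact lt_ord.1 hα
    obtain ⟨r5, hr5, g, hg, hgmono⟩ := decide_values (distrib_of_closed hinf hP hακ)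
      (fun i : α.ToType => i) hG3
    obtain ⟨γ, hγ⟩ := bounded hreg hακ g
    obtain ⟨r6, hr6, htot⟩ := htotal r5 γ
    have hle63 : r6 ≤ r3 := hr6.trans hr5
    obtain ⟨s, hs⟩ := (hF (fun ζ => dec e a₁ r6.1 ζ)).2 B₀ hB₀ g (fun s t hst => hgmono s t hst)
    apply hs
    intro n hn
    have h2 := hhom s (g s) n r6 (hle63.trans hr3)
      (fMem_mono hr6 (hg s)) r6 le_rfl (fMem_mono hle63 (hB₀' n hn))
    simp only [if_true] at h2
    exact (mem_gameName (fun η hη => htot η (hη.trans (hγ s)))).1 h2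
  intro q hq hcon
  obtain ⟨r, hr, h | h⟩ := hcon c q le_rfl
  · exact hno0 r h
  · exact hno1 r h

end Pool.Agent.H98.Polar
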