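import Pool.Agent.H98.WC.Blocks
import Pool.Agent.H98.WC.PartA

/-!
The threshold: the least `α` for which Builder wins.
-/

open Cardinal Ordinal Set

namespace Pool.Agent.H98.Polar

theorem BuilderWins.mono {κ : Cardinal.{0}} {α β : Ordinal.{0}} (h : BuilderWins κ α)
    (hαβ : α ≤ β) : BuilderWins κ β := by
  obtain ⟨F, hF⟩ := h
  have h1 : typeLT α.ToType ≤ typeLT β.ToType := by
    rw [type_toType, type_toType]
    exact hαβ
  obtain ⟨e⟩ := type_le_iff'.1 h1
  have he : StrictMono e := fun a b hab => e.map_rel_iff.2 hab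
  refine ⟨F, fun B => ⟨(hF B).1, fun C hC f hf => ?_⟩⟩
  obtain ⟨i, hi⟩ := (hF B).2 C hC (fun a => f (e a)) (hf.comp he)
  exact ⟨e i, hi⟩

/-- the empty condition -/
def Levy.empty (κ μ : Cardinal.{0}) (hκ : 0 < κ) : Levy κ μ :=
  ⟨fun _ => none, by
    have : IsEmpty {ξ : κ.ord.ToType // (none : Option μ.ord.ToType) ≠ none} :=
      ⟨fun x => x.2 rfl⟩
    rw [mk_eq_zero]
    exact hκ⟩

/-- If all blocks are not won by Builder, the sum of fewer than `h` of them is not. -/
theorem not_wins_of_blocks {κ : Cardinal.{0}} (hreg : κ.IsRegular) (hunc : ℵ₀ < κ)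
    {α : Ordinal.{0}} (hα : α < κ.ord)
    {T : Type} [LinearOrder T] [WellFoundedLT T] (hTh : #T < hNumber) (hTκ : #T < κ)
    (ρ : α.ToType → T) (hρ : Monotone ρ) (β : T → Ordinal.{0}) (hβ : ∀ t, β t < κ.ord)
    (hnβ : ∀ t, ¬ BuilderWins κ (β t)) (w : ∀ t, {i // ρ i = t} → (β t).ToType)
    (hw : ∀ t, StrictMono (w t)) : ¬ BuilderWins κ α := by
  intro hW
  let p : Levy κ 2 := Levy.empty κ 2 hreg.pos
  refine fails_of_wins hreg hunc (μ := 2) le_rfl hα hW p p le_rfl ?_
  intro c q _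
  by_cases hno : ∃ r ≤ q, fHom κ κ.ord false c r
  · obtain ⟨r, hr, hr'⟩ := hno
    exact ⟨r, hr, Or.inl hr'⟩
  · push Not at hno
    obtain ⟨r, hr, hr'⟩ := blocks hreg hunc (levy_closed hreg 2) c hno hα hTh hTκ ρ hρ β hβ
      hnβ w hw
    exact ⟨r, hr, Or.inr hr'⟩

theorem not_wins_of_small {κ : Cardinal.{0}} (hreg : κ.IsRegular) (hunc : ℵ₀ < κ)
    {α : Ordinal.{0}} (hα : α < κ.ord) (h : α.card < hNumber) : ¬ BuilderWins κ α := by
  intro hW
  let p : Levy κ 2 := Levy.empty κ 2 hreg.pos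
  exact fails_of_wins hreg hunc (μ := 2) le_rfl hα hW p p le_rfl
    (main hreg hunc (levy_closed hreg 2) hα (Or.inl h) p)

theorem ToType.mk_lt {α : Ordinal.{0}} {x y : Iio α} (h : x < y) :
    Ordinal.ToType.mk x < Ordinal.ToType.mk y :=
  Ordinal.ToType.mk.lt_iff_lt.2 h

/-- sums of two -/
theorem wins_add {κ : Cardinal.{0}} (hreg : κ.IsRegular) (hunc : ℵ₀ < κ)
    {α β γ : Ordinal.{0}} (hα : α < κ.ord) (hβ : β < κ.ord) (hγ : γ < κ.ord)
    (hαβγ : α ≤ β + γ) (h1 : ¬ BuilderWins κ β) (h2 : ¬ BuilderWins κ γ) :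
    ¬ BuilderWins κ α := by
  classical
  let tp : α.ToType → Ordinal.{0} := fun i => (Ordinal.ToType.mk.symm i).1
  have htp : StrictMono tp := fun i j hij => Ordinal.ToType.mk.symm.lt_iff_lt.2 hij
  have htpα : ∀ i, tp i < α := fun i => (Ordinal.ToType.mk.symm i).2
  let ρ : α.ToType → Bool := fun i => decide (β ≤ tp i)
  have hρ0 : ∀ i, ρ i = false → tp i < β := fun i hi => not_le.1 (of_decide_eq_false hi)
  have hρ1 : ∀ i, ρ i = true → β ≤ tp i := fun i hi => of_decide_eq_true hi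
  have hρ : Monotone ρ := by
    intro i j hij
    rcases hi : ρ i with _ | _
    · exact Bool.false_le _
    · have : β ≤ tp j := (hρ1 i hi).trans (htp.monotone hij)
      have h3 : ρ j = true := decide_eq_true this
      rw [h3]
  let w : ∀ t : Bool, {i // ρ i = t} → (if t then γ else β).ToType := fun t => match t with
    | false => fun i => Ordinal.ToType.mk ⟨tp i.1, hρ0 i.1 i.2⟩
    | true => fun i => Ordinal.ToType.mk ⟨tp i.1 - β, by
        change tp i.1 - β < γ
        rw [Ordinal.sub_lt_of_le (hρ1 i.1 i.2)]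
        exact (htpα i.1).trans_le hαβγ⟩
  have hw : ∀ t, StrictMono (w t) := by
    intro t
    cases t with
    | false => exact fun i j hij => ToType.mk_lt (htp hij)
    | true =>
      intro i j hij
      refine ToType.mk_lt ?_
      change tp i.1 - β < tp j.1 - β
      rw [Ordinal.sub_lt_of_le (hρ1 i.1 i.2), Ordinal.add_sub_cancel_of_le (hρ1 j.1 j.2)]
      exact htp hij
  refine not_wins_of_blocks hreg hunc hα (T := Bool) ?_ ?_ ρ hρ
    (fun t => if t then γ else β) ?_ ?_ w hw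
  · exact (lt_aleph0_of_finite Bool).trans aleph0_lt_hNumber
  · exact (lt_aleph0_of_finite Bool).trans hunc
  · intro t
    cases t
    · exact hβ
    · exact hγ
  · intro t
    cases t
    · exact h1
    · exact h2

/-- cofinal sums -/
theorem not_wins_of_cof {κ : Cardinal.{0}} (hreg : κ.IsRegular) (hunc : ℵ₀ < κ)
    {α : Ordinal.{0}} (hα : α < κ.ord) (hlim : ∀ β < α, β + 1 < α)
    (hn : ∀ β < α, ¬ BuilderWins κ β) (hcof : α.cof < hNumber) : ¬ BuilderWins κ α := by
  classical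
  obtain ⟨S, hS, hScard⟩ := Order.exists_cof_eq α.ToType
  rw [cof_toType] at hScard
  let tp : α.ToType → Ordinal.{0} := fun i => (Ordinal.ToType.mk.symm i).1
  have htp : StrictMono tp := fun i j hij => Ordinal.ToType.mk.symm.lt_iff_lt.2 hij
  have htpα : ∀ i, tp i < α := fun i => (Ordinal.ToType.mk.symm i).2
  have hex : ∀ i : α.ToType, {s : S | i < s.1}.Nonempty := by
    intro i
    obtain ⟨s, hs, hs'⟩ := hS (Ordinal.ToType.mk ⟨tp i + 1, hlim _ (htpα i)⟩)
    refine ⟨⟨s, hs⟩, lt_of_lt_of_le ?_ hs'⟩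
    have h1 : i = Ordinal.ToType.mk ⟨tp i, htpα i⟩ := by
      exact (Ordinal.ToType.mk.apply_symm_apply i).symm
    rw [h1]
    refine ToType.mk_lt ?_
    change tp i < tp (Ordinal.ToType.mk ⟨tp i, htpα i⟩) + 1
    rw [← h1]
    exact lt_add_one _
  let ρ : α.ToType → S := fun i => wellFounded_lt.min {s : S | i < s.1} (hex i)
  have hρ1 : ∀ i, i < (ρ i).1 := fun i => wellFounded_lt.min_mem _ (hex i)
  have hρ : Monotone ρ := by
    intro i j hij
    exact not_lt.1 (wellFounded_lt.not_lt_min {s : S | i < s.1} (hij.trans_lt (hρ1 j)))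
  have hScard' : #S < κ := by
    refine (mk_set_le S).trans_lt ?_
    rw [mk_toType]
    exact lt_ord.1 hα
  refine not_wins_of_blocks hreg hunc hα (T := S) (by rw [hScard]; exact hcof) hScard' ρ hρ
    (fun s => tp s.1) (fun s => (htpα _).trans hα) (fun s => hn _ (htpα _))
    (fun s i => Ordinal.ToType.mk ⟨tp i.1, ?_⟩) ?_
  · have h1 := hρ1 i.1
    rw [i.2] at h1
    exact htp h1
  · intro s i j hij
    exact ToType.mk_lt (htp hij)

/-- The threshold. -/
theorem threshold {κ : Cardinal.{0}} (hreg : κ.IsRegular) (hunc : ℵ₀ < κ)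
    {α : Ordinal.{0}} (hα : α < κ.ord) (hW : BuilderWins κ α)
    (hn : ∀ β < α, ¬ BuilderWins κ β) :
    hNumber ≤ α.cof ∧ ∀ β < α, ∀ γ < α, β + γ < α := by
  have h1 : ∀ β < α, ∀ γ < α, β + γ < α := by
    intro β hβ γ hγ
    by_contra hcon
    exact wins_add hreg hunc hα (hβ.trans hα) (hγ.trans hα) (not_lt.1 hcon) (hn β hβ)
      (hn γ hγ) hW
  refine ⟨?_, h1⟩
  by_contra hcon
  rw [not_le] at hcon
  have hone : 1 < α := by
    by_contra h2
    rw [not_lt] at h2
    refine not_wins_of_small hreg hunc hα ?_ hW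
    refine (Ordinal.card_le_card h2).trans_lt ?_
    rw [card_one]
    exact one_lt_aleph0.trans aleph0_lt_hNumber
  exact not_wins_of_cof hreg hunc hα (fun β hβ => h1 β hβ 1 hone) hn hcon hW

end Pool.Agent.H98.Polar
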