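import Pool.Agent.H98.WC.PartB
import Pool.Agent.H98.WC.Thr
import Pool.Agent.H98.WC.Ground

/-!
The threshold theorem.
-/

open Cardinal Ordinal Set

namespace Pool.Agent.H98.Polar

theorem fails_down {κ : Cardinal.{0}} (hreg : κ.IsRegular) (hunc : ℵ₀ < κ)
    {α : Ordinal.{0}} (hW : BuilderWins κ α) {κ' : Cardinal.{0}} (hreg' : κ'.IsRegular)
    (hunc' : ℵ₀ < κ') (hle : κ' ≤ κ) (hα : α < κ'.ord) {μ : Cardinal.{0}} (hμ : 2 ≤ μ)
    (p : Levy κ' μ) : fNot (fUnbalanced κ' α) p := by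
  have hα' : α < κ.ord := hα.trans_le (ord_le_ord.2 hle)
  exact fails_of_wins hreg' hunc' hμ hα (wins_of_closed hreg hunc hle (levy_closed hreg 2) hα
    (fails_of_wins hreg hunc (μ := 2) le_rfl hα' hW (Levy.empty κ 2 hreg.pos))) p

theorem holds_of_not_wins {κ : Cardinal.{0}} (hreg : κ.IsRegular) (hunc : ℵ₀ < κ)
    {α : Ordinal.{0}} (hα : α < κ.ord) (hn : ¬ BuilderWins κ α) (R : Type) [Preorder R]
    (hR : ClosedPoset κ R) (p : R) : fUnbalanced κ α p := by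
  by_contra hcon
  have h1 : ∃ q ≤ p, fNot (fUnbalanced κ α) q := by
    unfold fUnbalanced fAll at hcon
    push Not at hcon
    obtain ⟨c, hc⟩ := hcon
    unfold fOr at hc
    push Not at hc
    obtain ⟨q, hq, hc⟩ := hc
    refine ⟨q, hq, fun q' hq' h2 => ?_⟩
    obtain ⟨r, hr, h3⟩ := h2 c q' le_rfl
    rcases h3 with h3 | h3
    · exact (hc r (hr.trans hq')).1 h3
    · exact (hc r (hr.trans hq')).2 h3
  obtain ⟨q, _, hq⟩ := h1
  exact hn (wins_of_closed hreg hunc le_rfl hR hα hq)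

theorem holds_up {κ : Cardinal.{0}} {α : Ordinal.{0}} (hα : α < κ.ord)
    (hn : ¬ BuilderWins κ α) {κ' : Cardinal.{0}} (hreg' : κ'.IsRegular) (hunc' : ℵ₀ < κ')
    (hle : κ ≤ κ') (R : Type) [Preorder R] (hR : ClosedPoset κ' R) (p : R) :
    fUnbalanced κ' α p := by
  have hα' : α < κ'.ord := hα.trans_le (ord_le_ord.2 hle)
  refine holds_of_not_wins hreg' hunc' hα' (fun hW => hn ?_) R hR p
  exact wins_of_closed hreg' hunc' hle (levy_closed hreg' 2) hα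
    (fails_of_wins hreg' hunc' (μ := 2) le_rfl hα' hW (Levy.empty κ' 2 hreg'.pos))

theorem exists_threshold {κ : Cardinal.{0}} (hreg : κ.IsRegular) (hunc : ℵ₀ < κ) :
    ∃ t ≤ κ.ord,
      (∀ α < κ.ord, (t ≤ α ↔ BuilderWins κ α) ∧ (¬ Unbalanced κ α → t ≤ α)) ∧
      (∀ α < t, ∀ κ' : Cardinal.{0}, κ'.IsRegular → κ ≤ κ' → ∀ (R : Type) [Preorder R],
        ClosedPoset κ' R → ∀ p : R, fUnbalanced κ' α p) ∧
      (∀ α, t ≤ α → ∀ κ' : Cardinal.{0}, κ'.IsRegular → ℵ₀ < κ' → κ' ≤ κ → α < κ'.ord →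
        ∀ μ : Cardinal.{0}, 2 ≤ μ → ∀ p : Levy κ' μ, fNot (fUnbalanced κ' α) p) ∧
      (t < κ.ord → hNumber ≤ t.cof ∧ ∀ β < t, ∀ γ < t, β + γ < t) := by
  classical
  let S : Set Ordinal.{0} := insert κ.ord {α | BuilderWins κ α}
  have hSne : S.Nonempty := ⟨_, mem_insert _ _⟩
  have ht : sInf S ≤ κ.ord := csInf_le' (mem_insert _ _)
  have hlow : ∀ α < sInf S, ¬ BuilderWins κ α := fun α hα hW =>
    notMem_of_lt_csInf' hα (mem_insert_of_mem _ hW)
  have htw : sInf S < κ.ord → BuilderWins κ (sInf S) := by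
    intro h
    rcases csInf_mem hSne with h1 | h1
    · exact absurd h1 h.ne
    · exact h1
  have hup : ∀ α < κ.ord, sInf S ≤ α → BuilderWins κ α := fun α hα h =>
    (htw (h.trans_lt hα)).mono h
  have hiff : ∀ α < κ.ord, (sInf S ≤ α ↔ BuilderWins κ α) := fun α hα =>
    ⟨hup α hα, fun h => not_lt.1 (fun h1 => hlow α h1 h)⟩
  refine ⟨sInf S, ht, fun α hα => ⟨hiff α hα, fun h => (hiff α hα).2
    (wins_of_not_unbalanced hreg hunc h)⟩, fun α hα κ' hreg' hle R _ hR p =>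
    holds_up (hα.trans_le ht) (hlow α hα) hreg' (hunc.trans_le hle) hle R hR p,
    fun α hα κ' hreg' hunc' hle hα' μ hμ p => fails_down hreg hunc
      (hup α (hα'.trans_le (ord_le_ord.2 hle)) hα) hreg' hunc' hle hα' hμ p,
    fun h => threshold hreg hunc h (htw h) hlow⟩

end Pool.Agent.H98.Polar
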