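import Pool.Agent.H98.WC.Defs
import Pool.Agent.H98.PolarMain

/-!
A failure in some closed extension gives a winning strategy.
-/

open Cardinal Ordinal Set

namespace Pool.Agent.H98.Polar

namespace WCB

variable {P K K' : Type} [Preorder P] [LinearOrder K] [LinearOrder K'] [WellFoundedLT K']

/-- one step of the play -/
def Rel (c : SetName P (K × ℕ)) (p : P) (B : K' → {B : Set ℕ // B.Infinite}) (ξ : K')
    (h : ∀ η, η < ξ → P × K) (x : P × K) : Prop :=
  x.1 ≤ p ∧ (∀ η (hη : η < ξ), x.1 ≤ (h η hη).1 ∧ (h η hη).2 < x.2) ∧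
    ∃ S, RowDec c x.1 x.2 S ∧ ∀ η, η < ξ → (S ∩ (B η).1).Nonempty

open scoped Classical in
/-- the play -/
noncomputable def play (c : SetName P (K × ℕ)) (p : P) (x₀ : P × K)
    (B : K' → {B : Set ℕ // B.Infinite}) : K' → P × K :=
  WellFoundedLT.fix (motive := fun _ => P × K)
    (fun ξ h => if hx : ∃ x, Rel c p B ξ h x then hx.choose else x₀)

theorem play_eq (c : SetName P (K × ℕ)) (p : P) (x₀ : P × K)
    (B : K' → {B : Set ℕ // B.Infinite}) (ξ : K')
    (hx : ∃ x, Rel c p B ξ (fun η _ => play c p x₀ B η) x) :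
    Rel c p B ξ (fun η _ => play c p x₀ B η) (play c p x₀ B ξ) := by
  classical
  have h1 : play c p x₀ B ξ = if hx : ∃ x, Rel c p B ξ (fun η _ => play c p x₀ B η) x
      then hx.choose else x₀ := by
    unfold play
    exact WellFoundedLT.fix_eq (motive := fun _ => P × K)
      (fun ξ h => if hx : ∃ x, Rel c p B ξ h x then hx.choose else x₀) ξ
  rw [h1, dif_pos hx]
  exact hx.choose_spec

theorem play_local (c : SetName P (K × ℕ)) (p : P) (x₀ : P × K)
    {B B' : K' → {B : Set ℕ // B.Infinite}} {ξ : K'} (hB : ∀ η < ξ, B η = B' η) :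
    play c p x₀ B ξ = play c p x₀ B' ξ := by
  classical
  induction ξ using WellFoundedLT.induction with
  | ind ξ ih =>
    have h1 : ∀ B : K' → {B : Set ℕ // B.Infinite}, play c p x₀ B ξ =
        if hx : ∃ x, Rel c p B ξ (fun η _ => play c p x₀ B η) x then hx.choose else x₀ := by
      intro B
      unfold play
      exact WellFoundedLT.fix_eq (motive := fun _ => P × K)
        (fun ξ h => if hx : ∃ x, Rel c p B ξ h x then hx.choose else x₀) ξ
    have h2 : Rel c p B ξ (fun η _ => play c p x₀ B η) =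
        Rel c p B' ξ (fun η _ => play c p x₀ B' η) := by
      funext x
      unfold Rel
      have h3 : ∀ η, η < ξ → play c p x₀ B η = play c p x₀ B' η := fun η hη =>
        ih η hη (fun ζ hζ => hB ζ (hζ.trans hη))
      apply propext
      constructor
      · rintro ⟨h4, h5, S, h6, h7⟩
        exact ⟨h4, fun η hη => by have h8 := h5 η hη; dsimp only at h8 ⊢; rw [← h3 η hη]; exact h8, S, h6,
          fun η hη => by rw [← hB η hη]; exact h7 η hη⟩
      · rintro ⟨h4, h5, S, h6, h7⟩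
        exact ⟨h4, fun η hη => by have h8 := h5 η hη; dsimp only at h8 ⊢; rw [h3 η hη]; exact h8, S, h6,
          fun η hη => by rw [hB η hη]; exact h7 η hη⟩
    rw [h1 B, h1 B', h2]

end WCB

open WCB in
/-- If the relation fails in some `< κ`-closed extension, Builder wins the game of length `κ'`
for all regular `κ' ≤ κ`. -/
theorem wins_of_closed {κ κ' : Cardinal.{0}} (hreg : κ.IsRegular) (hunc : ℵ₀ < κ)
    (hle : κ' ≤ κ) {P : Type} [Preorder P] (hP : ClosedPoset κ P)
    {α : Ordinal.{0}} (hα : α < κ'.ord) {p₀ : P} (hp₀ : fNot (fUnbalanced κ α) p₀) :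
    BuilderWins κ' α := by
  classical
  -- a name for a counterexample
  obtain ⟨c, p, hno0, hno1⟩ : ∃ (c : SetName P (κ.ord.ToType × ℕ)) (p : P),
      (∀ r ≤ p, ¬ fHom κ κ.ord false c r) ∧ ∀ r ≤ p, ¬ fHom κ α true c r := by
    have h1 := hp₀ p₀ le_rfl
    unfold fUnbalanced fAll fOr at h1
    push Not at h1
    obtain ⟨c, q, hq, h2⟩ := h1
    exact ⟨c, q, fun r hr => (h2 r hr).1, fun r hr => (h2 r hr).2⟩
  have hne : Nonempty κ.ord.ToType := by
    obtain ⟨γ, -⟩ := bounded hreg (σ := Empty) (by simp [hreg.pos]) (fun x => x.elim)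
    exact ⟨γ⟩
  have hIio : ∀ ξ : κ'.ord.ToType, #(Iio ξ) < κ := fun ξ =>
    (mk_Iio_toType_ord_lt ξ).trans_le hle
  have hinf : ℵ₀ ≤ κ := hreg.aleph0_le
  let x₀ : P × κ.ord.ToType := (p, Classical.arbitrary _)
  have key : ∀ (B : κ'.ord.ToType → {B : Set ℕ // B.Infinite}) (ξ : κ'.ord.ToType),
      Rel c p B ξ (fun η _ => play c p x₀ B η) (play c p x₀ B ξ) := by
    intro B ξ
    induction ξ using WellFoundedLT.induction with
    | ind ξ ih =>
      apply play_eq
      obtain ⟨q, hq⟩ := hP (insert p ((fun η => (play c p x₀ B η).1) '' Iio ξ))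
        ((mk_insert_le).trans_lt (add_lt_of_lt hinf (mk_image_le.trans_lt (hIio ξ))
          (one_lt_aleph0.trans hunc))) (by
        rintro x (rfl | ⟨a, ha, rfl⟩) y (rfl | ⟨b, hb, rfl⟩) hxy
        · exact absurd rfl hxy
        · exact Or.inr (ih b hb).1
        · exact Or.inl (ih a ha).1
        · rcases lt_trichotomy a b with h' | h' | h'
          · exact Or.inr ((ih b hb).2.1 a h').1
          · exact absurd (by rw [h']) hxy
          · exact Or.inl ((ih a ha).2.1 b h').1)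
      have hqp : q ≤ p := hq p (mem_insert _ _)
      obtain ⟨q', hq', H⟩ := distrib_of_closed hinf hP (hIio ξ) q
        (fun (η : Iio ξ) q => ∃ γ : κ.ord.ToType, ∀ r ≤ q, ∀ ζ, γ < ζ → ∀ S, RowDec c r ζ S →
          (S ∩ (B η.1).1).Infinite)
        (fun η q q' hqq' hh => by
          obtain ⟨γ, hγ⟩ := hh
          exact ⟨γ, fun r hr => hγ r (hr.trans hqq')⟩)
        (fun η q₁ hq₁ => by
          obtain ⟨q₂, hq₂, γ, hγ⟩ := star hreg hunc hP c hno0 (B η.1).2 (hq₁.trans hqp)
          exact ⟨q₂, hq₂, γ, hγ⟩)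
      choose γ hγ using H
      obtain ⟨γ', hγ'⟩ := bounded hreg (hIio ξ) γ
      obtain ⟨γ'', hγ''⟩ := bounded hreg (hIio ξ) (fun η => (play c p x₀ B η.1).2)
      obtain ⟨ζ, hζ⟩ := bounded hreg (σ := Unit) (by simpa using one_lt_aleph0.trans hunc)
        (fun _ => max γ' γ'')
      obtain ⟨r, hr, S, hS⟩ := exists_rowDec
        (distrib_of_closed hinf hP (by rw [mk_nat]; exact hunc)) c q' ζ
      refine ⟨(r, ζ), hr.trans (hq'.trans hqp), fun η hη => ⟨?_, ?_⟩, S, hS, fun η hη => ?_⟩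
      · exact hr.trans (hq'.trans (hq _ (mem_insert_of_mem _ ⟨η, hη, rfl⟩)))
      · exact (hγ'' ⟨η, hη⟩).trans ((le_max_right _ _).trans_lt (hζ ()))
      · exact (hγ ⟨η, hη⟩ r hr ζ ((hγ' ⟨η, hη⟩).trans ((le_max_left _ _).trans_lt (hζ ())))
          S hS).nonempty
  -- the strategy
  let ext : ∀ ξ : κ'.ord.ToType, (Iio ξ → {B : Set ℕ // B.Infinite}) →
      κ'.ord.ToType → {B : Set ℕ // B.Infinite} :=
    fun ξ B η => if h : η < ξ then B ⟨η, h⟩ else ⟨univ, infinite_univ⟩
  let F : ∀ ξ : κ'.ord.ToType, (Iio ξ → {B : Set ℕ // B.Infinite}) → Set ℕ := fun ξ B =>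
    {n | fMem ((play c p x₀ (ext ξ B) ξ).2, n) c (play c p x₀ (ext ξ B) ξ).1}
  have hF : ∀ (B : κ'.ord.ToType → {B : Set ℕ // B.Infinite}) (ξ : κ'.ord.ToType),
      F ξ (fun ζ => B ζ.1) = {n | fMem ((play c p x₀ B ξ).2, n) c (play c p x₀ B ξ).1} := by
    intro B ξ
    have h1 : play c p x₀ (ext ξ (fun ζ => B ζ.1)) ξ = play c p x₀ B ξ := by
      refine play_local c p x₀ (fun η hη => ?_)
      simp only [ext]
      rw [dif_pos hη]
    simp only [F]
    rw [h1]
  refine ⟨F, fun B => ⟨fun ξ η hη => ?_, fun C hC f hf => ?_⟩⟩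
  · rw [hF]
    obtain ⟨_, _, S, hS, hSB⟩ := key B ξ
    obtain ⟨n, hnS, hnB⟩ := hSB η hη
    exact ⟨n, (hS n).1 hnS, hnB⟩
  · by_contra hcon
    push Not at hcon
    have hακ : #α.ToType < κ := by
      rw [mk_toType]
      exact (lt_ord.1 hα).trans_le hle
    obtain ⟨q, hq⟩ := hP (insert p (range fun i => (play c p x₀ B (f i)).1))
      ((mk_insert_le).trans_lt (add_lt_of_lt hinf (mk_range_le.trans_lt hακ)
        (one_lt_aleph0.trans hunc))) (by
      rintro x (rfl | ⟨a, rfl⟩) y (rfl | ⟨b, rfl⟩) hxy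
      · exact absurd rfl hxy
      · exact Or.inr (key B (f b)).1
      · exact Or.inl (key B (f a)).1
      · rcases lt_trichotomy a b with h' | h' | h'
        · exact Or.inr ((key B (f b)).2.1 (f a) (hf h')).1
        · exact absurd (by rw [h']) hxy
        · exact Or.inl ((key B (f a)).2.1 (f b) (hf h')).1)
    refine hno1 q (hq p (mem_insert _ _)) ?_
    refine fHom_of_fun c hC (fun i => (play c p x₀ B (f i)).2) ?_ ?_
    · intro i j hij
      exact ((key B (f j)).2.1 (f i) (hf hij)).2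
    · intro i n hn
      have h1 := hcon i hn
      rw [hF] at h1
      exact fMem_mono (hq _ (mem_insert_of_mem _ ⟨i, rfl⟩)) h1

end Pool.Agent.H98.Polar
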